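import Pool.Agent.H52.CY5

set_option autoImplicit false

namespace Pool.Agent.Results.MP_5d0005_an.NoCurve

open Real

/-- `γ` is a smooth strictly convex closed plane curve of length `L`, parametrised by arc length
counterclockwise: simple, of positive curvature, strictly to the left of each tangent line. -/
structure Table (γ : ℝ → ℂ) (L : ℝ) : Prop where
  pos : 0 < L
  smooth : ContDiff ℝ (⊤ : ℕ∞) γ
  per : Function.Periodic γ L
  unit : ∀ s, ‖deriv γ s‖ = 1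
  simple : Set.InjOn γ (Set.Ico 0 L)
  curv : ∀ s, 0 < ((starRingEnd ℂ) (deriv γ s) * deriv (deriv γ) s).im
  left : ∀ s s', γ s' ≠ γ s → 0 < ((starRingEnd ℂ) (deriv γ s) * (γ s' - γ s)).im

/-- The phase cylinder of pairs `(s, α)`. -/
abbrev Cyl (L : ℝ) : Type := AddCircle L × Set.Ioo (0 : ℝ) π

/-- The chord leaving `γ s` at angle `α` meets `γ` again at `γ s1`, at angle `α1`. -/
def Bil (γ : ℝ → ℂ) (L : ℝ) (z w : Cyl L) : Prop :=
  ∃ s s1 : ℝ, (s : AddCircle L) = z.1 ∧ (s1 : AddCircle L) = w.1 ∧ ∃ l : ℝ, 0 < l ∧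
    γ s1 = γ s + l * (deriv γ s * Complex.exp ((z.2 : ℝ) * Complex.I)) ∧
    deriv γ s1 = deriv γ s * Complex.exp ((z.2 : ℝ) * Complex.I) *
      Complex.exp ((w.2 : ℝ) * Complex.I)

/-- The shift `(s, α) ↦ (s + d cot α, α)`. -/
noncomputable def T2 (L d : ℝ) (z : Cyl L) : Cyl L :=
  (z.1 + ((d * cot z.2 : ℝ) : AddCircle L), z.2)

/-- A rotational invariant curve: a simple closed curve, not contractible, with `T Γ = Γ`. -/
def RotInv {L : ℝ} (T : Cyl L → Cyl L) (Γ : Set (Cyl L)) : Prop :=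
  ∃ f : C(Circle, Cyl L), Function.Injective f ∧ ¬ f.Nullhomotopic ∧ Set.range f = Γ ∧ T '' Γ = Γ

theorem result : ∃ (γ : ℝ → ℂ) (L : ℝ), Table γ L ∧
    Set.range γ = {z : ℂ | z.re ^ 2 / 4 + z.im ^ 2 = 1} ∧
    ∃ T1 : Cyl L → Cyl L, (∀ z w, Bil γ L z w ↔ w = T1 z) ∧
      ∀ d : ℝ, 100 ≤ d → ∀ Γ : Set (Cyl L), ¬ RotInv (T2 L d ∘ T1) Γ := by
  open Pool.Agent.H52.CY in
  obtain ⟨T1, hT⟩ := exists_T1
  open Pool.Agent.H52.CY in
  refine ⟨G, Len, ⟨Len_pos, G_smooth, fun s => by simpa using G_per s 1, norm_dG, G_injOn, G_curv,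
    G_left⟩, G_range, T1, hT, ?_⟩
  rintro d hd Γ ⟨f, -, hn, rfl, hf⟩
  exact hn (Pool.Agent.H52.CY.no_curve d hd T1 hT f hf)

end Pool.Agent.Results.MP_5d0005_an.NoCurve
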